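import Pool.Agent.H43.BZ.Stm2

set_option autoImplicit false

open MeasureTheory Metric Set Filter Topology
open scoped RealInnerProductSpace ENNReal

/-! # RATE of project BZ2 (MP_187b32_an) -/

namespace Pool.Agent.H860.BZRate
open Pool.Agent.H43.BZ

theorem P_pos (d : ℕ) (v : E d) : 0 < P d v := by
  unfold P
  positivity

/-- Time shift of a solution. -/
theorem shift {d : ℕ} {γ : ℝ} {b : ℝ → ℝ} {T : ℝ} {f : ℝ → E d → E d → ℝ} (h : Sol d γ b T f)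
    {t₀ : ℝ} (h0 : t₀ ∈ Ico 0 T) : Sol d γ b (T - t₀) (fun t => f (t₀ + t)) := by
  obtain ⟨h0, h1⟩ := h0
  refine ⟨?_, ?_, ?_, ?_, ?_, ?_, ?_⟩
  · intro t ht
    exact h.nonneg _ ⟨by linarith [ht.1], by linarith [ht.2]⟩
  · have hc : Continuous fun p : ℝ × E d × E d => ((t₀ + p.1, p.2) : ℝ × E d × E d) := by
      fun_prop
    refine h.cont.comp hc.continuousOn ?_
    intro p hp
    exact ⟨⟨by linarith [hp.1.1], by linarith [hp.1.2]⟩, mem_univ _⟩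
  · intro t ht
    exact h.periodic _ ⟨by linarith [ht.1], by linarith [ht.2]⟩
  · intro T' hT' q
    obtain ⟨C, hC⟩ := h.decay (t₀ + T') ⟨by linarith [hT'.1], by linarith [hT'.2]⟩ q
    exact ⟨C, fun t ht => hC _ ⟨by linarith [ht.1], by linarith [ht.2]⟩⟩
  · intro t ht x v
    have hd := h.diff (t₀ + t) ⟨by linarith [ht.1], by linarith [ht.2]⟩ x v
    have hc : DifferentiableAt ℝ (fun p : ℝ × E d => ((t₀ + p.1, p.2) : ℝ × E d)) (t, x) := by
      fun_prop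
    exact DifferentiableAt.comp (g := fun p : ℝ × E d => f p.1 p.2 v) (t, x) hd hc
  · intro t ht x v
    exact h.conv (t₀ + t) ⟨by linarith [ht.1], by linarith [ht.2]⟩ x v
  · intro t ht x v
    have he := h.eqn (t₀ + t) ⟨by linarith [ht.1], by linarith [ht.2]⟩ x v
    have hs := fderiv_comp_add_left (𝕜 := ℝ) (f := fun p : ℝ × E d => f p.1 p.2 v)
      (x := ((t, x) : ℝ × E d)) ((t₀, 0) : ℝ × E d)
    simp only [Prod.fst_add, Prod.snd_add, zero_add, Prod.mk_add_mk] at hs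
    rw [← he, ← hs]

theorem meas {d : ℕ} {γ : ℝ} {b : ℝ → ℝ} {T : ℝ} {f : ℝ → E d → E d → ℝ} (h : Sol d γ b T f)
    {t : ℝ} (ht : t ∈ Ico 0 T) (x : E d) : Measurable (f t x) := by
  have hc : Continuous fun v : E d => ((t, x, v) : ℝ × E d × E d) := by fun_prop
  have : ContinuousOn (fun v : E d => f t x v) univ :=
    h.cont.comp hc.continuousOn fun v _ => ⟨ht, mem_univ _⟩
  exact (continuousOn_univ.1 this).measurable

/-- Decay gives a bound by `P`. -/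
theorem of_decay {d : ℕ} {γ : ℝ} {b : ℝ → ℝ} {T : ℝ} {f : ℝ → E d → E d → ℝ}
    (h : Sol d γ b T f) {t₀ : ℝ} (h0 : t₀ ∈ Ico 0 T) :
    ∃ B : ℝ, ∀ t ∈ Icc 0 t₀, ∀ x v, f t x v ≤ B * P d v := by
  obtain ⟨B, hB⟩ := h.decay t₀ h0 (2 * (4 * (d + 3)))
  refine ⟨B, fun t ht x v => ?_⟩
  have hf := h.nonneg t ⟨ht.1, ht.2.trans_lt h0.2⟩ x v
  have h1 : (1 + ‖v‖ ^ 2) ^ (4 * (d + 3)) ≤ (1 + ‖v‖) ^ (2 * (4 * (d + 3))) := by
    rw [pow_mul (1 + ‖v‖) 2 (4 * (d + 3))]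
    refine pow_le_pow_left₀ (by positivity : (0:ℝ) ≤ 1 + ‖v‖ ^ 2) ?_ _
    nlinarith [norm_nonneg v]
  have h2 := hB t ht x v
  have h3 : (1 + ‖v‖ ^ 2) ^ (4 * (d + 3)) * f t x v ≤ B :=
    (mul_le_mul_of_nonneg_right h1 hf).trans h2
  rw [P, ← div_eq_mul_inv, le_div_iff₀ (by positivity)]
  linarith [mul_comm ((1 + ‖v‖ ^ 2) ^ (4 * (d + 3))) (f t x v)]

theorem RATE (hf : S_FINn) (hl : S_LAMLE) (ho : S_ODE) : S_RATE := by
  intro d hd s γ K hs hs1 hγ hγs hK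
  obtain ⟨C, hC, hfin⟩ := hf d hd s γ K hs hs1 hγ hγs hK
  obtain ⟨C₁, hC₁, hlam⟩ := hl d hd s γ hs hs1 hγ hγs
  have hCC : 0 ≤ C * C₁ := mul_nonneg hC hC₁
  refine ⟨1 / (2 * (C * C₁ + 1)), by positivity, ?_⟩
  intro b hb T f hT hsol t₀ ht₀ N hN hNc
  have hN0 : 0 ≤ N := by
    have h1 := hsol.nonneg t₀ ht₀ 0 0
    have h2 := hN 0 0
    by_contra hneg
    have := mul_neg_of_neg_of_pos (not_le.1 hneg) (P_pos d (0 : E d))
    linarith
  have hT0 : 0 < T - t₀ := by linarith [ht₀.2]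
  have hg := shift hsol ht₀
  obtain ⟨hcont, hnn, hbd⟩ := hfin b hb (T - t₀) (fun t => f (t₀ + t)) hT0 hg
  have hbd := hbd N (by simpa using hN)
  have hle : ∀ t ∈ Ico 0 (T - t₀), Lam γ s (fun t => f (t₀ + t)) t ≤ C₁ * N *
      Real.exp (C * ∫ τ in (0:ℝ)..t, Lam γ s (fun t => f (t₀ + t)) τ) := by
    intro t ht
    rw [mul_assoc]
    exact hlam _ t _ (hg.nonneg t ht) (meas hg ht) (hbd t ht)
  have hsmall : C * (C₁ * N) * (T - t₀) ≤ 1 / 2 := by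
    have h1 : C * (C₁ * N) * (T - t₀) = C * C₁ * (N * (T - t₀)) := by ring
    have h2 : C * C₁ * (N * (T - t₀)) ≤ C * C₁ * (1 / (2 * (C * C₁ + 1))) :=
      mul_le_mul_of_nonneg_left hNc hCC
    have h3 : C * C₁ * (1 / (2 * (C * C₁ + 1))) ≤ 1 / 2 := by
      rw [mul_one_div, div_le_div_iff₀ (by positivity) (by norm_num)]
      linarith
    linarith
  have hexp := ho (T - t₀) C (C₁ * N) _ hT0 hC (mul_nonneg hC₁ hN0) hcont hnn hle hsmall
  have main : ∀ t ∈ Ico t₀ T, ∀ x v, f t x v ≤ 2 * N * P d v := by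
    intro t ht x v
    have ht' : t - t₀ ∈ Ico 0 (T - t₀) := ⟨by linarith [ht.1], by linarith [ht.2]⟩
    have h1 := hbd (t - t₀) ht' x v
    have h2 := hexp (t - t₀) ht'
    simp only [add_sub_cancel] at h1
    refine h1.trans ?_
    refine mul_le_mul_of_nonneg_right ?_ (P_pos d v).le
    rw [mul_comm 2 N]
    exact mul_le_mul_of_nonneg_left h2 hN0
  refine ⟨main, ?_⟩
  obtain ⟨B, hB⟩ := of_decay hsol ht₀
  refine ⟨max B (2 * N), fun t ht x v => ?_⟩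
  rcases le_total t t₀ with h | h
  · exact (hB t ⟨ht.1, h⟩ x v).trans
      (mul_le_mul_of_nonneg_right (le_max_left _ _) (P_pos d v).le)
  · exact (main t ⟨h, ht.2⟩ x v).trans
      (mul_le_mul_of_nonneg_right (le_max_right _ _) (P_pos d v).le)

end Pool.Agent.H860.BZRate
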